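import Pool.Agent.helper3.FT.AlgDefs
import Pool.Agent.helper96.FT.A2

set_option autoImplicit false

/-!
# The choice of ideals and elements (module A5b)
-/

namespace Pool.Agent.helper3.FT

open NumberField Pool.Agent.helper47.RA

variable {K : Type} [Field K] [NumberField K]

namespace A5b

lemma D_ne {D : ℤ} (h : IsFund D) : D ≠ 0 := by
  rcases h with ⟨h, _, _⟩ | ⟨m, rfl, _, h⟩
  · intro h0; simp [h0] at h
  · intro h0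
    have : m = 0 := by omega
    subst this
    exact not_squarefree_zero h

omit [NumberField K] in
lemma span_ne_bot {x : 𝓞 K} (hx : x ≠ 0) : Ideal.span {x} ≠ (⊥ : Ideal (𝓞 K)) := by
  simpa [Ideal.span_singleton_eq_bot] using hx

lemma absNorm_pos {x : 𝓞 K} (hx : x ≠ 0) : 0 < Ideal.absNorm (Ideal.span {x}) := by
  rw [Nat.pos_iff_ne_zero, Ne, Ideal.absNorm_eq_zero_iff]
  exact span_ne_bot hx

lemma vprod_pos (Q : QF K) {x : 𝓞 K} (hx : x ≠ 0) : 0 < Q.v₁ x * Q.v₂ x := by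
  rw [← Q.hnorm]
  exact_mod_cast absNorm_pos hx

lemma v₁_pos (Q : QF K) {x : 𝓞 K} (hx : x ≠ 0) : 0 < Q.v₁ x := by
  rcases (Q.v₁_nonneg x).lt_or_eq with h | h
  · exact h
  · have := vprod_pos Q hx
    rw [← h, zero_mul] at this
    exact absurd this (lt_irrefl _)

lemma v₂_pos (Q : QF K) {x : 𝓞 K} (hx : x ≠ 0) : 0 < Q.v₂ x := by
  rcases (Q.v₂_nonneg x).lt_or_eq with h | h
  · exact h
  · have := vprod_pos Q hx
    rw [← h, mul_zero] at this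
    exact absurd this (lt_irrefl _)

/-- the minimal element of an ideal in a box -/
theorem choice (Q : QF K) (b : Ideal (𝓞 K)) (hb : 0 < Ideal.absNorm b) (A B : ℝ) (hA : 0 < A)
    (hB : 0 < B) (hAB : A * B = 4 * √|(Q.D : ℝ)| * Ideal.absNorm b) (hD : Q.D < 0 → A = B) :
    ∃ x : 𝓞 K, x ≠ 0 ∧ Q.v₁ x ≤ A ∧ Q.v₂ x ≤ B ∧ ∃ c : Ideal (𝓞 K),
      Ideal.span {x} = b * c ∧ Prim c ∧ 0 < Ideal.absNorm c ∧
      (Ideal.absNorm c : ℝ) ≤ 4 * √|(Q.D : ℝ)| := by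
  classical
  have hex : ∃ n : ℕ, ∃ x ∈ b, x ≠ 0 ∧ Q.v₁ x ≤ A ∧ Q.v₂ x ≤ B ∧
      Ideal.absNorm (Ideal.span {x}) = n := by
    obtain ⟨x, hx, h0, h1, h2⟩ := Q.hmink b hb A B hA hB hAB.ge hD
    exact ⟨_, x, hx, h0, h1, h2, rfl⟩
  obtain ⟨x, hx, h0, h1, h2, h3⟩ := Nat.find_spec hex
  have hmin : ∀ y ∈ b, y ≠ 0 → Q.v₁ y ≤ A → Q.v₂ y ≤ B →
      Nat.find hex ≤ Ideal.absNorm (Ideal.span {y}) := fun y hy e0 e1 e2 =>
    Nat.find_min' hex ⟨y, hy, e0, e1, e2, rfl⟩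
  obtain ⟨c, hc⟩ := Ideal.dvd_span_singleton.2 hx
  have hb0 : b ≠ ⊥ := by
    rw [Ne, ← Ideal.absNorm_eq_zero_iff]; exact hb.ne'
  have hN : Ideal.absNorm (Ideal.span {x}) = Ideal.absNorm b * Ideal.absNorm c := by
    rw [hc, map_mul]
  have hcpos : 0 < Ideal.absNorm c := by
    rw [Nat.pos_iff_ne_zero]
    intro h
    have := absNorm_pos h0
    rw [hN, h, mul_zero] at this
    exact lt_irrefl _ this
  refine ⟨x, h0, h1, h2, c, hc, ?_, hcpos, ?_⟩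
  · intro q hq hdvd
    obtain ⟨d, hd⟩ := hdvd
    have e1 : Ideal.span {x} = Ideal.span {(q : 𝓞 K)} * (b * d) := by
      rw [hc, hd]; ring
    have e2 : Ideal.span {(q : 𝓞 K)} ∣ Ideal.span {x} := ⟨_, e1⟩
    have e3 : (q : 𝓞 K) ∣ x := Ideal.mem_span_singleton.1 (Ideal.dvd_span_singleton.1 e2)
    obtain ⟨y, hy⟩ := e3
    have hq0 : (q : 𝓞 K) ≠ 0 := by exact_mod_cast hq.ne_zero
    have e4 : Ideal.span {y} = b * d := by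
      have : Ideal.span {(q : 𝓞 K)} * Ideal.span {y} = Ideal.span {(q : 𝓞 K)} * (b * d) := by
        rw [← e1, hy, Ideal.span_singleton_mul_span_singleton]
      exact mul_left_cancel₀ (span_ne_bot hq0) this
    have hyb : y ∈ b := Ideal.dvd_span_singleton.1 ⟨d, e4⟩
    have hy0 : y ≠ 0 := by
      rintro rfl
      exact h0 (by rw [hy, mul_zero])
    have hq1 : (1 : ℝ) ≤ q := by exact_mod_cast hq.one_lt.le
    have hv1 : Q.v₁ x = q * Q.v₁ y := by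
      rw [hy, Q.v₁_mul]
      have := Q.v₁_int (q : ℤ)
      rw [Int.cast_natCast] at this
      rw [this]; simp
    have hv2 : Q.v₂ x = q * Q.v₂ y := by
      rw [hy, Q.v₂_mul]
      have := Q.v₂_int (q : ℤ)
      rw [Int.cast_natCast] at this
      rw [this]; simp
    have p1 := v₁_pos Q hy0
    have p2 := v₂_pos Q hy0
    have h5 := hmin y hyb hy0 (by nlinarith) (by nlinarith)
    have h6 : ((Ideal.absNorm (Ideal.span {x}) : ℕ) : ℝ) =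
        q * q * (Ideal.absNorm (Ideal.span {y}) : ℕ) := by
      rw [Q.hnorm, Q.hnorm, hv1, hv2]; ring
    have h7 : (0 : ℝ) < (Ideal.absNorm (Ideal.span {y}) : ℕ) := by
      exact_mod_cast absNorm_pos hy0
    have h8 : ((Ideal.absNorm (Ideal.span {x}) : ℕ) : ℝ) ≤ (Ideal.absNorm (Ideal.span {y}) : ℕ) := by
      rw [h3]; exact_mod_cast h5
    have hq2 : (2 : ℝ) ≤ q := by exact_mod_cast hq.two_le
    have h9 : (4 : ℝ) ≤ q * q := by nlinarith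
    have h10 := mul_le_mul_of_nonneg_right h9 h7.le
    linarith
  · have e1 : ((Ideal.absNorm (Ideal.span {x}) : ℕ) : ℝ) =
        (Ideal.absNorm b : ℝ) * Ideal.absNorm c := by
      rw [hN]; push_cast; ring
    rw [Q.hnorm] at e1
    have e2 : Q.v₁ x * Q.v₂ x ≤ A * B :=
      mul_le_mul h1 h2 (Q.v₂_nonneg x) hA.le
    rw [e1, hAB] at e2
    have hbp : (0 : ℝ) < Ideal.absNorm b := by exact_mod_cast hb
    have : (Ideal.absNorm b : ℝ) * Ideal.absNorm c ≤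
        Ideal.absNorm b * (4 * √|(Q.D : ℝ)|) := by linarith
    exact le_of_mul_le_mul_left this hbp

/-- the real inequalities -/
lemma ineqs {a₁ a₂ r b₁ b₂ c₁ c₂ z nL : ℝ} (ha₁ : 0 < a₁) (ha₂ : 0 < a₂) (hr : 0 < r)
    (hb₁ : 0 < b₁) (hL : 0 < nL)
    (hz : z = a₁ * a₂) (h1 : a₁ ≤ 2 * r) (h2 : a₂ ≤ 2 * r)
    (hβ₁ : b₁ ≤ 2 * a₁ ^ 2 * r) (hβ₂ : b₂ ≤ 2 * a₂ ^ 2 * r)
    (hγ₁ : z * b₁ ^ 2 = a₁ ^ 5 * c₁) (hγ₂ : z * b₂ ^ 2 = a₂ ^ 5 * c₂)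
    (hβ : b₁ * b₂ = z ^ 2 * nL) :
    b₁ ≤ 8 * r ^ 3 ∧ c₁ ≤ 8 * r ^ 3 ∧ b₁ * c₂ ≤ 16 * r ^ 4 * nL ∧ b₁ * c₁ ≤ 16 * r ^ 4 * z := by
  subst hz
  have q1 : a₁ ^ 2 ≤ 4 * r ^ 2 := by nlinarith
  have q3 : a₁ ^ 3 ≤ 8 * r ^ 3 := by
    calc a₁ ^ 3 = a₁ ^ 2 * a₁ := by ring
      _ ≤ (4 * r ^ 2) * (2 * r) := mul_le_mul q1 h1 ha₁.le (by positivity)
      _ = 8 * r ^ 3 := by ring
  refine ⟨?_, ?_, ?_, ?_⟩
  · calc b₁ ≤ 2 * a₁ ^ 2 * r := hβ₁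
      _ ≤ 2 * (4 * r ^ 2) * r := by gcongr
      _ = 8 * r ^ 3 := by ring
  · have e1 : a₁ ^ 5 * c₁ ≤ a₁ ^ 5 * (8 * r ^ 3) := by
      rw [← hγ₁]
      calc a₁ * a₂ * b₁ ^ 2 ≤ a₁ * a₂ * (2 * a₁ ^ 2 * r) ^ 2 := by gcongr
        _ = a₁ ^ 5 * (4 * r ^ 2 * a₂) := by ring
        _ ≤ a₁ ^ 5 * (4 * r ^ 2 * (2 * r)) := by gcongr
        _ = a₁ ^ 5 * (8 * r ^ 3) := by ring
    exact le_of_mul_le_mul_left e1 (by positivity)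
  · have e1 : a₂ ^ 5 * (b₁ * c₂) ≤ a₂ ^ 5 * (16 * r ^ 4 * nL) := by
      calc a₂ ^ 5 * (b₁ * c₂) = b₁ * (a₂ ^ 5 * c₂) := by ring
        _ = b₁ * (a₁ * a₂ * b₂ ^ 2) := by rw [hγ₂]
        _ = a₁ * a₂ * (b₁ * b₂) * b₂ := by ring
        _ = (a₁ * a₂) ^ 3 * nL * b₂ := by rw [hβ]; ring
        _ ≤ (a₁ * a₂) ^ 3 * nL * (2 * a₂ ^ 2 * r) := by gcongr
        _ = a₂ ^ 5 * (2 * r * nL * a₁ ^ 3) := by ring
        _ ≤ a₂ ^ 5 * (2 * r * nL * (8 * r ^ 3)) := by gcongr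
        _ = a₂ ^ 5 * (16 * r ^ 4 * nL) := by ring
    exact le_of_mul_le_mul_left e1 (by positivity)
  · have e1 : a₁ ^ 5 * (b₁ * c₁) ≤ a₁ ^ 5 * (16 * r ^ 4 * (a₁ * a₂)) := by
      calc a₁ ^ 5 * (b₁ * c₁) = b₁ * (a₁ ^ 5 * c₁) := by ring
        _ = b₁ * (a₁ * a₂ * b₁ ^ 2) := by rw [hγ₁]
        _ = a₁ * a₂ * b₁ ^ 3 := by ring
        _ ≤ a₁ * a₂ * (2 * a₁ ^ 2 * r) ^ 3 := by gcongr
        _ = a₁ ^ 5 * (8 * r ^ 3 * (a₁ * a₂) * a₁) := by ring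
        _ ≤ a₁ ^ 5 * (8 * r ^ 3 * (a₁ * a₂) * (2 * r)) := by gcongr
        _ = a₁ ^ 5 * (16 * r ^ 4 * (a₁ * a₂)) := by ring
    exact le_of_mul_le_mul_left e1 (by positivity)

end A5b

/-- A5b: the choice of ideals and elements -/
theorem exists_choice (Q : QF K) (C : ClassGroup (𝓞 K)) (hC : C ^ 5 = 1) :
    ∃ (a L : Ideal (𝓞 K)) (β γ : 𝓞 K), β ≠ 0 ∧ γ ≠ 0 ∧ Ideal.span {β} = a ^ 2 * L ∧
      Ideal.span {γ} = Q.bar a * L ^ 2 ∧ Prim a ∧ Prim L ∧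
      (∃ h : a ∈ nonZeroDivisors (Ideal (𝓞 K)), ClassGroup.mk0 ⟨a, h⟩ = C) ∧
      (Ideal.absNorm a : ℝ) ≤ 4 * |(Q.D : ℝ)| ^ (1 / 2 : ℝ) ∧
      (Ideal.absNorm L : ℝ) ≤ 4 * |(Q.D : ℝ)| ^ (1 / 2 : ℝ) ∧
      Q.v₁ β ≤ 8 * |(Q.D : ℝ)| ^ (3 / 4 : ℝ) ∧ Q.v₂ β ≤ 8 * |(Q.D : ℝ)| ^ (3 / 4 : ℝ) ∧
      Q.v₁ γ ≤ 8 * |(Q.D : ℝ)| ^ (3 / 4 : ℝ) ∧ Q.v₂ γ ≤ 8 * |(Q.D : ℝ)| ^ (3 / 4 : ℝ) ∧
      Q.v₁ β * Q.v₂ γ ≤ 16 * |(Q.D : ℝ)| * Ideal.absNorm L ∧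
      Q.v₂ β * Q.v₁ γ ≤ 16 * |(Q.D : ℝ)| * Ideal.absNorm L ∧
      Q.v₁ β * Q.v₁ γ ≤ 16 * |(Q.D : ℝ)| * Ideal.absNorm a ∧
      Q.v₂ β * Q.v₂ γ ≤ 16 * |(Q.D : ℝ)| * Ideal.absNorm a := by
  classical
  -- the size parameter `r = |D| ^ (1/4)`
  have hD0 : (0 : ℝ) < |(Q.D : ℝ)| := by
    have := A5b.D_ne Q.hD
    simpa using this
  set s : ℝ := |(Q.D : ℝ)| with hs
  obtain ⟨r, hr, hr4⟩ : ∃ r : ℝ, 0 < r ∧ r ^ 4 = s :=
    ⟨s ^ (1 / 4 : ℝ), Real.rpow_pos_of_pos hD0 _, by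
      rw [← Real.rpow_natCast, ← Real.rpow_mul hD0.le]; norm_num⟩
  have hr2 : √s = r ^ 2 := by
    rw [← hr4, show r ^ 4 = (r ^ 2) ^ 2 by ring, Real.sqrt_sq (by positivity)]
  have hp2 : s ^ (1 / 2 : ℝ) = r ^ 2 := by rw [← Real.sqrt_eq_rpow, hr2]
  have hp3 : s ^ (3 / 4 : ℝ) = r ^ 3 := by
    rw [← hr4, ← Real.rpow_natCast r 4, ← Real.rpow_mul hr.le, ← Real.rpow_natCast r 3]
    norm_num
  -- fifth roots
  have hroot : ∀ x : ℝ, 0 < x → ∃ y : ℝ, 0 < y ∧ y ^ 5 = x := fun x hx =>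
    ⟨x ^ (1 / 5 : ℝ), Real.rpow_pos_of_pos hx _, by
      rw [← Real.rpow_natCast, ← Real.rpow_mul hx.le]; norm_num⟩
  have hpow : ∀ {x y : ℝ}, 0 ≤ x → 0 ≤ y → x ^ 5 = y ^ 5 → x = y := fun {x y} hx hy h =>
    (pow_left_inj₀ hx hy (by norm_num : (5 : ℕ) ≠ 0)).1 h
  -- the ideal `b₀` in the class `C⁻¹`
  obtain ⟨⟨b₀, hb₀⟩, hbC⟩ := ClassGroup.mk0_surjective (R := 𝓞 K) C⁻¹
  have hb₀' : b₀ ≠ ⊥ := nonZeroDivisors.ne_zero hb₀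
  have hNb₀ : 0 < Ideal.absNorm b₀ := by
    rw [Nat.pos_iff_ne_zero, Ne, Ideal.absNorm_eq_zero_iff]; exact hb₀'
  obtain ⟨η, hη⟩ : ∃ η : 𝓞 K, b₀ ^ 5 = Ideal.span {η} := by
    have h1 : ClassGroup.mk0 (⟨b₀, hb₀⟩ ^ 5 : nonZeroDivisors (Ideal (𝓞 K))) = 1 := by
      rw [map_pow, hbC, inv_pow, hC, inv_one]
    rw [ClassGroup.mk0_eq_one_iff] at h1
    obtain ⟨η, hη⟩ := h1
    exact ⟨η, by simpa using hη⟩
  have hη0 : η ≠ 0 := by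
    rintro rfl
    have h : b₀ ^ 5 = 0 := by rw [hη]; simp
    exact hb₀' ((pow_eq_zero_iff (by norm_num)).1 h)
  obtain ⟨w₁, hw₁, hw₁'⟩ := hroot _ (A5b.v₁_pos Q hη0)
  obtain ⟨w₂, hw₂, hw₂'⟩ := hroot _ (A5b.v₂_pos Q hη0)
  have hw : w₁ * w₂ = Ideal.absNorm b₀ := by
    refine hpow (by positivity) (by positivity) ?_
    rw [mul_pow, hw₁', hw₂', ← Q.hnorm, ← hη, map_pow]
    push_cast
    ring
  obtain ⟨x, hx0, hx1, hx2, a, hxa, pa, haN, haN'⟩ := A5b.choice Q b₀ hNb₀ (2 * w₁ * r)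
    (2 * w₂ * r) (by positivity) (by positivity)
    (by rw [← hs, hr2, ← hw]; ring)
    (fun hneg => by
      have h := Q.himag hneg η
      rw [← hw₁', ← hw₂'] at h
      rw [hpow hw₁.le hw₂.le h])
  have ha0 : a ≠ ⊥ := by
    rw [Ne, ← Ideal.absNorm_eq_zero_iff]; exact haN.ne'
  have hamem : a ∈ nonZeroDivisors (Ideal (𝓞 K)) := mem_nonZeroDivisors_of_ne_zero ha0
  have haC : ClassGroup.mk0 ⟨a, hamem⟩ = C := by
    have h1 : ClassGroup.mk0 (⟨b₀, hb₀⟩ * ⟨a, hamem⟩ : nonZeroDivisors (Ideal (𝓞 K))) = 1 := by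
      rw [ClassGroup.mk0_eq_one_iff]
      exact ⟨x, by simpa using hxa.symm⟩
    rw [map_mul, hbC] at h1
    exact (inv_mul_eq_one.1 h1).symm
  -- `α`
  obtain ⟨α, hα⟩ : η ∣ x ^ 5 := by
    rw [← Ideal.mem_span_singleton, ← Ideal.dvd_span_singleton, ← hη,
      ← Ideal.span_singleton_pow, hxa, mul_pow]
    exact dvd_mul_right _ _
  have hα' : Ideal.span {α} = a ^ 5 := by
    have h1 : Ideal.span {η} * Ideal.span {α} = Ideal.span {η} * a ^ 5 := by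
      rw [Ideal.span_singleton_mul_span_singleton, ← hα, ← hη, ← mul_pow, ← hxa,
        Ideal.span_singleton_pow]
    exact mul_left_cancel₀ (A5b.span_ne_bot hη0) h1
  have hα0 : α ≠ 0 := by
    rintro rfl
    rw [mul_zero] at hα
    exact hx0 (pow_eq_zero_iff (by norm_num) |>.1 hα)
  have hv₁pow : ∀ (y : 𝓞 K) (n : ℕ), Q.v₁ (y ^ n) = Q.v₁ y ^ n := fun y n => by
    induction n with
    | zero => have := Q.v₁_int 1; simpa using this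
    | succ n ih => rw [pow_succ, Q.v₁_mul, ih, pow_succ]
  have hv₂pow : ∀ (y : 𝓞 K) (n : ℕ), Q.v₂ (y ^ n) = Q.v₂ y ^ n := fun y n => by
    induction n with
    | zero => have := Q.v₂_int 1; simpa using this
    | succ n ih => rw [pow_succ, Q.v₂_mul, ih, pow_succ]
  obtain ⟨a₁, ha₁, ha₁'⟩ := hroot _ (A5b.v₁_pos Q hα0)
  obtain ⟨a₂, ha₂, ha₂'⟩ := hroot _ (A5b.v₂_pos Q hα0)
  have hle5 : ∀ {u v : ℝ}, 0 < v → u ^ 5 ≤ v ^ 5 → u ≤ v := fun {u v} hv h => by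
    by_contra hc
    exact absurd h (not_le.2 (pow_lt_pow_left₀ (not_le.1 hc) hv.le (by norm_num)))
  have ha₁r : a₁ ≤ 2 * r := by
    have h1 : w₁ ^ 5 * a₁ ^ 5 = Q.v₁ x ^ 5 := by
      rw [hw₁', ha₁', ← Q.v₁_mul, ← hα, hv₁pow]
    have h2 : w₁ ^ 5 * a₁ ^ 5 ≤ w₁ ^ 5 * (2 * r) ^ 5 := by
      rw [h1, ← mul_pow]
      exact pow_le_pow_left₀ (Q.v₁_nonneg x) (hx1.trans (le_of_eq (by ring))) 5
    exact hle5 (by positivity) (le_of_mul_le_mul_left h2 (by positivity))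
  have ha₂r : a₂ ≤ 2 * r := by
    have h1 : w₂ ^ 5 * a₂ ^ 5 = Q.v₂ x ^ 5 := by
      rw [hw₂', ha₂', ← Q.v₂_mul, ← hα, hv₂pow]
    have h2 : w₂ ^ 5 * a₂ ^ 5 ≤ w₂ ^ 5 * (2 * r) ^ 5 := by
      rw [h1, ← mul_pow]
      exact pow_le_pow_left₀ (Q.v₂_nonneg x) (hx2.trans (le_of_eq (by ring))) 5
    exact hle5 (by positivity) (le_of_mul_le_mul_left h2 (by positivity))
  have hz : (Ideal.absNorm a : ℝ) = a₁ * a₂ := by
    refine hpow (by positivity) (by positivity) ?_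
    rw [mul_pow, ha₁', ha₂', ← Q.hnorm, hα', map_pow]
    push_cast
    ring
  -- `β`
  obtain ⟨β, hβ0, hβ1, hβ2, L, hβL, pL, hLN, hLN'⟩ := A5b.choice Q (a ^ 2)
    (by rw [map_pow]; positivity) (2 * a₁ ^ 2 * r)
    (2 * a₂ ^ 2 * r) (by positivity) (by positivity)
    (by rw [← hs, hr2, map_pow]; push_cast; rw [hz]; ring)
    (fun hneg => by
      have h := Q.himag hneg α
      rw [← ha₁', ← ha₂'] at h
      rw [hpow ha₁.le ha₂.le h])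
  -- `γ`
  obtain ⟨γ, hγ⟩ : α ∣ (Ideal.absNorm a : 𝓞 K) * β ^ 2 := by
    rw [← Ideal.mem_span_singleton, ← Ideal.dvd_span_singleton, hα',
      ← Ideal.span_singleton_mul_span_singleton, ← Q.mul_bar a, ← Ideal.span_singleton_pow, hβL]
    exact ⟨Q.bar a * L ^ 2, by ring⟩
  have hγ' : Ideal.span {γ} = Q.bar a * L ^ 2 := by
    have h1 : Ideal.span {α} * Ideal.span {γ} = Ideal.span {α} * (Q.bar a * L ^ 2) := by
      rw [Ideal.span_singleton_mul_span_singleton, ← hγ, hα',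
        ← Ideal.span_singleton_mul_span_singleton, ← Q.mul_bar a, ← Ideal.span_singleton_pow, hβL]
      ring
    exact mul_left_cancel₀ (A5b.span_ne_bot hα0) h1
  have haN0 : ((Ideal.absNorm a : ℕ) : 𝓞 K) ≠ 0 := by exact_mod_cast haN.ne'
  have hγ0 : γ ≠ 0 := by
    rintro rfl
    rw [mul_zero] at hγ
    exact (mul_ne_zero haN0 (pow_ne_zero 2 hβ0)) hγ
  have hv1 : a₁ * a₂ * Q.v₁ β ^ 2 = a₁ ^ 5 * Q.v₁ γ := by
    rw [ha₁', ← Q.v₁_mul, ← hγ, Q.v₁_mul, hv₁pow]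
    have := Q.v₁_int (Ideal.absNorm a : ℤ)
    rw [Int.cast_natCast] at this
    rw [this, Int.cast_natCast, abs_of_nonneg (by positivity), hz]
  have hv2 : a₁ * a₂ * Q.v₂ β ^ 2 = a₂ ^ 5 * Q.v₂ γ := by
    rw [ha₂', ← Q.v₂_mul, ← hγ, Q.v₂_mul, hv₂pow]
    have := Q.v₂_int (Ideal.absNorm a : ℤ)
    rw [Int.cast_natCast] at this
    rw [this, Int.cast_natCast, abs_of_nonneg (by positivity), hz]
  have hββ : Q.v₁ β * Q.v₂ β = (a₁ * a₂) ^ 2 * Ideal.absNorm L := by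
    rw [← Q.hnorm, hβL, map_mul, map_pow]
    push_cast
    rw [hz]
  have hLpos : (0 : ℝ) < Ideal.absNorm L := by exact_mod_cast hLN
  obtain ⟨f1, f2, f3, f4⟩ := A5b.ineqs (z := a₁ * a₂) ha₁ ha₂ hr (A5b.v₁_pos Q hβ0) hLpos rfl
    ha₁r ha₂r hβ1 hβ2 hv1 hv2 hββ
  obtain ⟨g1, g2, g3, g4⟩ := A5b.ineqs (z := a₁ * a₂) ha₂ ha₁ hr (A5b.v₂_pos Q hβ0) hLpos
    (by ring) ha₂r ha₁r hβ2 hβ1 hv2 hv1 (by rw [mul_comm, hββ])
  rw [hr4] at f3 f4 g3 g4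
  refine ⟨a, L, β, γ, hβ0, hγ0, hβL, hγ', pa, pL, ⟨hamem, haC⟩, ?_, ?_, ?_, ?_, ?_, ?_, ?_, ?_,
    ?_, ?_⟩
  · rw [hp2, ← hr2]; exact haN'
  · rw [hp2, ← hr2]; exact hLN'
  · rw [hp3]; exact f1
  · rw [hp3]; exact g1
  · rw [hp3]; exact f2
  · rw [hp3]; exact g2
  · exact f3
  · exact g3
  · rw [hz]; exact f4
  · rw [hz]; exact g4

end Pool.Agent.helper3.FT
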