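import Pool.Agent.helper3.FT.G
import Pool.Agent.helper65.FT.Z1

set_option autoImplicit false

/-!
# The final count: dyadic decomposition
-/

namespace Pool.Agent.helper3.FT

open Finset

/-- the block attached to `(a, b, i)` -/
noncomputable def TTblk (L : ℕ) (p : ℕ × ℕ × ℕ) : Finset ((ℕ × ℕ) × (ℤ × ℤ × ℤ)) :=
  blockSet ((2 ^ L) ^ 2) (2 ^ p.1) (2 ^ p.2.1) ((2 ^ p.1) ^ 2 * 2 ^ p.2.2) (4 * 2 ^ (2 * L - p.2.2))

/-- the indices of the blocks -/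
def TTidx (L : ℕ) : Finset (ℕ × ℕ × ℕ) :=
  (range (L + 1) ×ˢ range (L + 1) ×ˢ range (2 * L + 1)).filter
    (fun p => p.2.1 ≤ p.1 ∧ 2 * p.1 + p.2.2 ≤ 2 * L)

/-- the sign attached to a boolean -/
def TTsg (s : Bool) : ℤ := if s then 1 else -1

/-- reconstruction of a point of `SS` from a point of a block -/
def TTphi (s : Bool × Bool × Bool) (t : (ℕ × ℕ) × (ℤ × ℤ × ℤ)) : ℤ × ℤ × ℤ × ℤ × ℤ × ℤ :=
  if s.2.2 then
    (TTsg s.1 * t.1.1, TTsg s.2.1 * t.1.2, t.2.1, t.2.2.1, t.2.2.2,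
      (t.2.1 * t.2.2.1 + t.2.2.2 * (t.1.2 : ℤ) ^ 2) / (t.1.1 : ℤ) ^ 2)
  else
    (TTsg s.1 * t.1.2, TTsg s.2.1 * t.1.1, -t.2.2.1, t.2.1,
      (t.2.1 * t.2.2.1 + t.2.2.2 * (t.1.2 : ℤ) ^ 2) / (t.1.1 : ℤ) ^ 2, t.2.2.2)

lemma TTsg_eq (n : ℤ) : ∃ s : Bool, n = TTsg s * (n.natAbs : ℤ) := by
  rcases le_total 0 n with h | h
  · exact ⟨true, by simp [TTsg, abs_of_nonneg h]⟩
  · exact ⟨false, by simp [TTsg, abs_of_nonpos h]⟩

/-- dyadic localisation -/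
lemma TT_dyadic (n L : ℕ) (hn : 1 ≤ n) (hL : n ≤ 2 ^ L) :
    ∃ a, a ≤ L ∧ n ≤ 2 ^ a ∧ 2 ^ a < 2 * n ∧ a = Nat.clog 2 n := by
  refine ⟨Nat.clog 2 n, ?_, Nat.le_pow_clog (by norm_num) n, ?_, rfl⟩
  · exact Nat.clog_le_of_le_pow hL
  · rcases Nat.lt_or_ge n 2 with h | h
    · have : n = 1 := by omega
      subst this
      simp
    · have h1 := Nat.pow_pred_clog_lt_self (b := 2) (by norm_num) (x := n) (by omega)
      have h2 : 1 ≤ Nat.clog 2 n := Nat.clog_pos (by norm_num) h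
      obtain ⟨c, hc⟩ : ∃ c, Nat.clog 2 n = c + 1 := ⟨Nat.clog 2 n - 1, by omega⟩
      rw [hc] at h1 ⊢
      simp only [Nat.pred_succ] at h1
      rw [pow_succ]
      omega

/-- main membership: positive, ordered case -/
lemma TT_mem (T L : ℕ) (hTL : T ≤ 2 ^ L) (n k : ℕ) (m g z l : ℤ) (hn : 1 ≤ n) (hk : 1 ≤ k)
    (hkn : k ≤ n) (hcop : Nat.Coprime n k) (hnT : n ≤ T)
    (hm : |m| ≤ (T : ℤ) ^ 2) (hg : |g| ≤ (T : ℤ) ^ 2) (hz : |z| ≤ (T : ℤ) ^ 2)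
    (hl : |l| ≤ (T : ℤ) ^ 2) (h1 : m * g = l * (n : ℤ) ^ 2 - z * (k : ℤ) ^ 2)
    (h2 : (k : ℤ) ∣ m ^ 2 - z * (n : ℤ) ^ 2) (h3 : (n : ℤ) ∣ g ^ 2 - l * (k : ℤ) ^ 2) :
    ∃ p ∈ TTidx L, ((n, k), (m, g, z)) ∈ TTblk L p := by
  obtain ⟨a, haL, hna, han, hac⟩ := TT_dyadic n L hn (hnT.trans hTL)
  obtain ⟨b, hbL, hkb, hbk, hbc⟩ := TT_dyadic k L hk ((hkn.trans hnT).trans hTL)
  have hba : b ≤ a := by
    rw [hac, hbc]; exact Nat.clog_mono_right 2 hkn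
  have hTL' : (T : ℤ) ≤ 2 ^ L := by exact_mod_cast hTL
  have hT2 : (T : ℤ) ^ 2 ≤ ((2 : ℤ) ^ L) ^ 2 := by gcongr
  -- the size of `m`
  have hi : ∃ i : ℕ, 2 * a + i ≤ 2 * L ∧ |m| ≤ (2 ^ a) ^ 2 * 2 ^ i ∧
      (i = 0 ∨ (2 ^ a) ^ 2 * 2 ^ i < 2 * |m|) := by
    classical
    have hex : ∃ i : ℕ, |m| ≤ (2 ^ a) ^ 2 * 2 ^ i := by
      refine ⟨2 * (L - a), ?_⟩
      have : ((2 : ℤ) ^ a) ^ 2 * 2 ^ (2 * (L - a)) = (2 ^ L) ^ 2 := by
        rw [← pow_mul, ← pow_mul, ← pow_add]; congr 1; omega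
      rw [this]; exact hm.trans hT2
    refine ⟨Nat.find hex, ?_, Nat.find_spec hex, ?_⟩
    · have : Nat.find hex ≤ 2 * (L - a) := by
        apply Nat.find_min'
        have : ((2 : ℤ) ^ a) ^ 2 * 2 ^ (2 * (L - a)) = (2 ^ L) ^ 2 := by
          rw [← pow_mul, ← pow_mul, ← pow_add]; congr 1; omega
        rw [this]; exact hm.trans hT2
      omega
    · rcases Nat.eq_zero_or_pos (Nat.find hex) with h | h
      · left; exact h
      · right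
        obtain ⟨c, hc⟩ : ∃ c, Nat.find hex = c + 1 := ⟨Nat.find hex - 1, by omega⟩
        have h4 := Nat.find_min hex (m := c) (by omega)
        push Not at h4
        rw [hc, pow_succ (2 : ℤ) c]
        linarith
  obtain ⟨i, hia, him, hi0⟩ := hi
  refine ⟨(a, b, i), ?_, ?_⟩
  · simp only [TTidx, Finset.mem_filter, Finset.mem_product, Finset.mem_range]
    omega
  · have hz' : |z| ≤ ((2 : ℤ) ^ L) ^ 2 := hz.trans hT2
    have hG : |g| ≤ 4 * 2 ^ (2 * L - i) := by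
      rcases hi0 with h | h
      · subst h
        have : ((2 : ℤ)) ^ (2 * L - 0) = (2 ^ L) ^ 2 := by
          rw [← pow_mul]; congr 1; omega
        rw [this]
        have h5 : |g| ≤ ((2 : ℤ) ^ L) ^ 2 := hg.trans hT2
        have h6 : (0 : ℤ) ≤ ((2 : ℤ) ^ L) ^ 2 := by positivity
        linarith
      · -- `|m g| ≤ 2 T' ^ 2 N ^ 2`
        have hn' : (n : ℤ) ≤ 2 ^ a := by exact_mod_cast hna
        have hk' : (k : ℤ) ≤ 2 ^ a := by
          have : k ≤ 2 ^ a := hkn.trans hna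
          exact_mod_cast this
        have h5 : |m| * |g| ≤ 2 * (2 ^ L) ^ 2 * (2 ^ a) ^ 2 := by
          rw [← abs_mul, h1]
          have h6 : |l * (n : ℤ) ^ 2 - z * (k : ℤ) ^ 2| ≤ |l * (n : ℤ) ^ 2| + |z * (k : ℤ) ^ 2| :=
            abs_sub _ _
          rw [abs_mul, abs_mul, abs_of_nonneg (by positivity : (0 : ℤ) ≤ (n : ℤ) ^ 2),
            abs_of_nonneg (by positivity : (0 : ℤ) ≤ (k : ℤ) ^ 2)] at h6
          have h7 : |l| * (n : ℤ) ^ 2 ≤ (2 ^ L) ^ 2 * (2 ^ a) ^ 2 := by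
            have := hl.trans hT2
            gcongr
          have h8 : |z| * (k : ℤ) ^ 2 ≤ (2 ^ L) ^ 2 * (2 ^ a) ^ 2 := by
            gcongr
          linarith
        have h9 : ((2 : ℤ) ^ a) ^ 2 * 2 ^ i * |g| ≤ 4 * (2 ^ L) ^ 2 * (2 ^ a) ^ 2 := by
          have : ((2 : ℤ) ^ a) ^ 2 * 2 ^ i * |g| ≤ 2 * |m| * |g| := by gcongr
          linarith
        have h10 : ((2 : ℤ) ^ L) ^ 2 = 2 ^ i * 2 ^ (2 * L - i) := by
          rw [← pow_mul, ← pow_add]; congr 1; omega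
        rw [h10] at h9
        have h11 : (0 : ℤ) < ((2 : ℤ) ^ a) ^ 2 * 2 ^ i := by positivity
        have h12 : ((2 : ℤ) ^ a) ^ 2 * 2 ^ i * |g| ≤
            ((2 : ℤ) ^ a) ^ 2 * 2 ^ i * (4 * 2 ^ (2 * L - i)) := by
          linarith
        exact le_of_mul_le_mul_left h12 h11
    simp only [TTblk, blockSet, pairs, Finset.mem_filter, Finset.mem_product, Finset.mem_Icc]
    push_cast
    refine ⟨⟨⟨⟨⟨hn, hna⟩, ⟨hk, hkb⟩⟩, han, hbk, hcop, one_dvd _⟩, abs_le.1 him, abs_le.1 hG,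
      abs_le.1 hz'⟩, ?_, h2⟩
    obtain ⟨c, hc⟩ := h3
    refine ⟨-c, ?_⟩
    have : z * (k : ℤ) ^ 4 + m * g * (k : ℤ) ^ 2 - g ^ 2 * (n : ℤ) ^ 2
        = -(n : ℤ) ^ 2 * (g ^ 2 - l * (k : ℤ) ^ 2) := by
      rw [h1]; ring
    rw [this, hc]; ring

/-- the cover of `SS T` -/
noncomputable def TTcov (L : ℕ) : Finset (ℤ × ℤ × ℤ × ℤ × ℤ × ℤ) :=
  (Finset.univ : Finset (Bool × Bool × Bool)).biUnion fun s =>
    (TTidx L).biUnion fun p => (TTblk L p).image (TTphi s)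

lemma TT_sub (T L : ℕ) (hTL : T ≤ 2 ^ L) : SS T ⊆ (TTcov L : Set (ℤ × ℤ × ℤ × ℤ × ℤ × ℤ)) := by
  classical
  rintro ⟨n, k, m, g, z, l⟩ ht
  simp only [SS, Set.mem_ofPred_eq] at ht
  obtain ⟨hn0, hk0, hcop, hnT, hkT, hm, hg, hz, hl, h1, h2, h3⟩ := ht
  simp only [TTcov, Finset.coe_biUnion, Finset.coe_univ, Set.mem_univ, Set.iUnion_true,
    Set.mem_iUnion, Finset.mem_coe, Finset.mem_image, exists_prop]
  obtain ⟨s1, hs1⟩ := TTsg_eq n
  obtain ⟨s2, hs2⟩ := TTsg_eq k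
  have hn1 : 1 ≤ n.natAbs := by omega
  have hk1 : 1 ≤ k.natAbs := by omega
  have hn2 : ((n.natAbs : ℕ) : ℤ) ^ 2 = n ^ 2 := by simp
  have hk2 : ((k.natAbs : ℕ) : ℤ) ^ 2 = k ^ 2 := by simp
  have hnT' : n.natAbs ≤ T := by
    have : ((n.natAbs : ℕ) : ℤ) ≤ T := by simpa using hnT
    exact_mod_cast this
  have hkT' : k.natAbs ≤ T := by
    have : ((k.natAbs : ℕ) : ℤ) ≤ T := by simpa using hkT
    exact_mod_cast this
  have hc : Nat.Coprime n.natAbs k.natAbs := Int.isCoprime_iff_gcd_eq_one.1 hcop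
  rcases le_total k.natAbs n.natAbs with hkn | hkn
  · obtain ⟨p, hp, hmem⟩ := TT_mem T L hTL n.natAbs k.natAbs m g z l hn1 hk1 hkn hc hnT' hm hg hz hl
      (by rw [hn2, hk2]; exact h1)
      (by rw [hn2]; exact Int.natAbs_dvd.2 h2)
      (by rw [hk2]; exact Int.natAbs_dvd.2 h3)
    refine ⟨(s1, s2, true), p, hp, _, hmem, ?_⟩
    have hq : (m * g + z * k ^ 2) / n ^ 2 = l := by
      have : m * g + z * k ^ 2 = l * n ^ 2 := by rw [h1]; ring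
      rw [this]; exact Int.mul_ediv_cancel _ (by positivity)
    simp only [TTphi, if_true]
    rw [hn2, hk2, hq, ← hs1, ← hs2]
  · obtain ⟨p, hp, hmem⟩ := TT_mem T L hTL k.natAbs n.natAbs g (-m) l z hk1 hn1 hkn hc.symm hkT'
      hg (by rw [abs_neg]; exact hm) hl hz
      (by rw [hn2, hk2]; linarith)
      (by rw [hk2]; exact Int.natAbs_dvd.2 h3)
      (by rw [hn2]; rw [neg_sq]; exact Int.natAbs_dvd.2 h2)
    refine ⟨(s1, s2, false), p, hp, _, hmem, ?_⟩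
    have hq : (g * (-m) + l * n ^ 2) / k ^ 2 = z := by
      have : g * (-m) + l * n ^ 2 = z * k ^ 2 := by linarith
      rw [this]; exact Int.mul_ediv_cancel _ (by positivity)
    simp only [TTphi, Bool.false_eq_true, if_false]
    rw [hn2, hk2, hq, ← hs1, ← hs2, neg_neg]

lemma TT_card (L : ℕ) (B : ℝ) (hB : ∀ p ∈ TTidx L, ((TTblk L p).card : ℝ) ≤ B) :
    ((TTcov L).card : ℝ) ≤ 16 * ((L : ℝ) + 1) ^ 3 * B := by
  classical
  have h0 : (TTcov L).card ≤ ∑ _s : Bool × Bool × Bool, ∑ p ∈ TTidx L, (TTblk L p).card := by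
    unfold TTcov
    refine Finset.card_biUnion_le.trans (Finset.sum_le_sum fun s _ => ?_)
    refine Finset.card_biUnion_le.trans (Finset.sum_le_sum fun p _ => ?_)
    exact Finset.card_image_le
  have hB0 : TTidx L = ∅ ∨ 0 ≤ B := by
    rcases (TTidx L).eq_empty_or_nonempty with h | ⟨p, hp⟩
    · left; exact h
    · right; exact le_trans (by positivity) (hB p hp)
  have hBnn : 0 ≤ B := by
    rcases hB0 with h | h
    · exfalso
      have : (0, 0, 0) ∈ TTidx L := by simp [TTidx]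
      rw [h] at this; simp at this
    · exact h
  have h1 : ((TTcov L).card : ℝ) ≤ ∑ _s : Bool × Bool × Bool, ∑ p ∈ TTidx L, ((TTblk L p).card : ℝ) := by
    exact_mod_cast h0
  have h2 : ∑ p ∈ TTidx L, ((TTblk L p).card : ℝ) ≤ (TTidx L).card * B := by
    rw [← nsmul_eq_mul]; exact Finset.sum_le_card_nsmul _ _ _ hB
  have h3 : ((TTidx L).card : ℝ) ≤ 2 * ((L : ℝ) + 1) ^ 3 := by
    have : (TTidx L).card ≤ (L + 1) * ((L + 1) * (2 * L + 1)) := by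
      refine (Finset.card_filter_le _ _).trans ?_
      rw [Finset.card_product, Finset.card_product, Finset.card_range, Finset.card_range]
    have h4 : ((TTidx L).card : ℝ) ≤ (L + 1) * ((L + 1) * (2 * L + 1)) := by exact_mod_cast this
    have h5 : (0 : ℝ) ≤ L := by positivity
    nlinarith [mul_nonneg h5 h5]
  refine h1.trans ?_
  rw [Finset.sum_const]
  simp only [Finset.card_univ, Fintype.card_prod, Fintype.card_bool, nsmul_eq_mul]
  have h6 : (∑ p ∈ TTidx L, ((TTblk L p).card : ℝ)) ≤ 2 * ((L : ℝ) + 1) ^ 3 * B :=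
    h2.trans (by gcongr)
  push_cast
  linarith

/-- TT (from G): the counting theorem -/
theorem count_SS (ε : ℝ) (hε : 0 < ε) : ∃ C : ℝ, 1 ≤ C ∧ ∀ T : ℕ, 1 ≤ T →
    (SS T).Finite ∧ ((SS T).ncard : ℝ) ≤ C * (T : ℝ) ^ (4 + ε) := by
  obtain ⟨C, hC1, hC⟩ := block_count (ε / 2) (by positivity)
  set D : ℝ := 1 + 1 / (ε / 6) with hD
  have hD1 : 1 ≤ D := by
    have : 0 < 1 / (ε / 6) := by positivity
    rw [hD]; linarith
  have hCD : 1 ≤ 16 * (8 * D ^ 3) * C * 2 ^ (4 + ε) := by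
    have a1 : (1 : ℝ) ≤ D ^ 3 := one_le_pow₀ hD1
    have a2 : (1 : ℝ) ≤ (2 : ℝ) ^ (4 + ε) := Real.one_le_rpow (by norm_num) (by positivity)
    have a3 : (1 : ℝ) ≤ 16 * (8 * D ^ 3) := by linarith
    have a4 : (1 : ℝ) ≤ 16 * (8 * D ^ 3) * C := one_le_mul_of_one_le_of_one_le a3 hC1
    exact one_le_mul_of_one_le_of_one_le a4 a2
  refine ⟨16 * (8 * D ^ 3) * C * 2 ^ (4 + ε), hCD, fun T hT => ?_⟩
  obtain ⟨L, -, hTL, hLT, -⟩ := TT_dyadic T T hT (Nat.lt_two_pow_self).le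
  have hsub := TT_sub T L hTL
  have hfin : (SS T).Finite := (Finset.finite_toSet (TTcov L)).subset hsub
  refine ⟨hfin, ?_⟩
  have h1 : (SS T).ncard ≤ (TTcov L).card := by
    rw [← Set.ncard_coe_finset]
    exact Set.ncard_le_ncard hsub (Finset.finite_toSet _)
  have h2 : ((SS T).ncard : ℝ) ≤ (TTcov L).card := by exact_mod_cast h1
  set R : ℝ := (2 : ℝ) ^ L with hR
  have hR1 : 1 ≤ R := one_le_pow₀ (by norm_num)
  have hRT : R ≤ 2 * T := by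
    have : ((2 ^ L : ℕ) : ℝ) ≤ ((2 * T : ℕ) : ℝ) := by exact_mod_cast hLT.le
    push_cast at this; exact this
  have h3 : ∀ p ∈ TTidx L, ((TTblk L p).card : ℝ) ≤ C * R ^ (4 + ε / 2) := by
    intro p hp
    simp only [TTidx, Finset.mem_filter, Finset.mem_product, Finset.mem_range] at hp
    have := hC (2 ^ L) (2 ^ p.1) (2 ^ p.2.1) ((2 ^ p.1) ^ 2 * 2 ^ p.2.2) (4 * 2 ^ (2 * L - p.2.2))
      Nat.one_le_two_pow (Nat.pow_le_pow_right (by norm_num) hp.2.1)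
      (Nat.pow_le_pow_right (by norm_num) (by omega)) ?_ ?_ ?_
    · push_cast at this
      exact this
    · have : (2 ^ L) ^ 2 = 2 ^ p.2.2 * 2 ^ (2 * L - p.2.2) := by
        rw [← pow_mul, ← pow_add]; congr 1; omega
      rw [this]; ring
    · exact Nat.le_mul_of_pos_right _ (by positivity)
    · rw [← pow_mul, ← pow_mul, ← pow_add]
      exact Nat.pow_le_pow_right (by norm_num) (by omega)
  have h4 := TT_card L _ h3
  have h5 : ((L : ℝ) + 1) ^ 3 ≤ 8 * D ^ 3 * R ^ (ε / 2) := by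
    have h6 := log_le_Z1 (ε / 6) (by positivity) (2 ^ L) Nat.one_le_two_pow
    push_cast at h6
    rw [Real.log_pow, ← hD, ← hR] at h6
    have h7 : (1 : ℝ) / 2 ≤ Real.log 2 := by have := Real.log_two_gt_d9; linarith
    have hL0 : (0 : ℝ) ≤ L := by positivity
    have h8 : (L : ℝ) + 1 ≤ 2 * (D * R ^ (ε / 6)) := by
      have : (L : ℝ) * (1 / 2) ≤ L * Real.log 2 := by gcongr
      linarith
    have h9 : ((L : ℝ) + 1) ^ 3 ≤ (2 * (D * R ^ (ε / 6))) ^ 3 := by gcongr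
    have h10 : (R ^ (ε / 6)) ^ 3 = R ^ (ε / 2) := by
      rw [← Real.rpow_natCast, ← Real.rpow_mul (by positivity)]
      congr 1; push_cast; ring
    calc ((L : ℝ) + 1) ^ 3 ≤ (2 * (D * R ^ (ε / 6))) ^ 3 := h9
      _ = 8 * D ^ 3 * (R ^ (ε / 6)) ^ 3 := by ring
      _ = _ := by rw [h10]
  have hR0 : 0 < R := by positivity
  have hT0 : (0 : ℝ) < T := by exact_mod_cast hT
  calc ((SS T).ncard : ℝ) ≤ 16 * ((L : ℝ) + 1) ^ 3 * (C * R ^ (4 + ε / 2)) := h2.trans h4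
    _ ≤ 16 * (8 * D ^ 3 * R ^ (ε / 2)) * (C * R ^ (4 + ε / 2)) := by gcongr
    _ = 16 * (8 * D ^ 3) * C * (R ^ (ε / 2) * R ^ (4 + ε / 2)) := by ring
    _ = 16 * (8 * D ^ 3) * C * R ^ (4 + ε) := by
        rw [← Real.rpow_add hR0]; congr 2; ring
    _ ≤ 16 * (8 * D ^ 3) * C * (2 * T) ^ (4 + ε) := by gcongr
    _ = 16 * (8 * D ^ 3) * C * 2 ^ (4 + ε) * (T : ℝ) ^ (4 + ε) := by
        rw [Real.mul_rpow (by norm_num) hT0.le]; ring

end Pool.Agent.helper3.FT
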